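import Mathlib

set_option autoImplicit false

namespace Pool.Agent.Results.MP_8f6a5a_an.Counterexample

open Matrix Finset

noncomputable section

/-! ### General facts about spectra of real matrices -/

lemma mem_spec_iff {n : ℕ} (A : Matrix (Fin n) (Fin n) ℂ) (μ : ℂ) :
    μ ∈ spectrum ℂ A ↔ ∃ x : Fin n → ℂ, x ≠ 0 ∧ A *ᵥ x = μ • x := by
  rw [← Matrix.spectrum_toLin', ← Module.End.hasEigenvalue_iff_mem_spectrum]
  constructor
  · intro h
    obtain ⟨x, hx⟩ := h.exists_hasEigenvector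
    refine ⟨x, hx.2, ?_⟩
    have := hx.apply_eq_smul
    simpa using this
  · rintro ⟨x, hx0, hx⟩
    refine Module.End.hasEigenvalue_of_hasEigenvector (x := x) ?_
    rw [Module.End.hasEigenvector_iff]
    refine ⟨?_, hx0⟩
    rw [Module.End.mem_eigenspace_iff]
    simpa using hx

lemma spec_le_one {n : ℕ} (P : Matrix (Fin n) (Fin n) ℝ) (hP : ∀ i j, 0 ≤ P i j)
    (v : Fin n → ℝ) (hv : ∀ i, 0 < v i) (hPv : P *ᵥ v = v) (μ : ℂ)
    (hμ : μ ∈ spectrum ℂ (P.map (algebraMap ℝ ℂ))) : ‖μ‖ ≤ 1 := by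
  obtain ⟨x, hx0, hx⟩ := (mem_spec_iff _ _).mp hμ
  obtain ⟨i0, hi0⟩ := Function.ne_iff.mp hx0
  have hne : (Finset.univ : Finset (Fin n)).Nonempty := ⟨i0, Finset.mem_univ _⟩
  obtain ⟨i, _, hi⟩ := Finset.exists_max_image Finset.univ (fun i => ‖x i‖ / v i) hne
  have hM : 0 < ‖x i‖ / v i := by
    have h1 := hi i0 (Finset.mem_univ _)
    have h2 : 0 < ‖x i0‖ / v i0 := div_pos (norm_pos_iff.mpr hi0) (hv i0)
    linarith
  set M := ‖x i‖ / v i with hMdef
  have hxi : ‖x i‖ = M * v i := by rw [hMdef, div_mul_cancel₀ _ (hv i).ne']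
  have hle : ∀ j, ‖x j‖ ≤ M * v j := fun j => by
    have := hi j (Finset.mem_univ _)
    rwa [div_le_iff₀ (hv j)] at this
  have h3 := congrFun hx i
  simp only [Matrix.mulVec, dotProduct, Matrix.map_apply, Pi.smul_apply, smul_eq_mul] at h3
  have h4 : ‖μ‖ * ‖x i‖ ≤ M * v i := by
    rw [← norm_mul, ← h3]
    calc ‖∑ j, (algebraMap ℝ ℂ) (P i j) * x j‖ ≤ ∑ j, ‖(algebraMap ℝ ℂ) (P i j) * x j‖ := norm_sum_le _ _
      _ ≤ ∑ j, P i j * (M * v j) := by
          refine Finset.sum_le_sum (fun j _ => ?_)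
          rw [norm_mul, Complex.coe_algebraMap, Complex.norm_real, Real.norm_of_nonneg (hP i j)]
          exact mul_le_mul_of_nonneg_left (hle j) (hP i j)
      _ = M * ∑ j, P i j * v j := by
          rw [Finset.mul_sum]; exact Finset.sum_congr rfl (fun j _ => by ring)
      _ = M * v i := by
          have := congrFun hPv i
          simp only [Matrix.mulVec, dotProduct] at this
          rw [this]
  rw [hxi] at h4
  have h5 : 0 < M * v i := mul_pos hM (hv i)
  by_contra h6
  push Not at h6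
  nlinarith

lemma one_mem_spec {n : ℕ} (P : Matrix (Fin n) (Fin n) ℝ) (v : Fin n → ℝ) (hv : v ≠ 0)
    (hPv : P *ᵥ v = v) : (1 : ℂ) ∈ spectrum ℂ (P.map (algebraMap ℝ ℂ)) := by
  rw [mem_spec_iff]
  refine ⟨fun i => (v i : ℂ), ?_, ?_⟩
  · intro h
    apply hv
    funext i
    have := congrFun h i
    simpa using this
  · rw [one_smul]
    funext i
    have := congrFun hPv i
    simp only [Matrix.mulVec, dotProduct, Matrix.map_apply, Complex.coe_algebraMap] at this ⊢
    rw [← this]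
    push_cast
    rfl

lemma specRadius_eq_one {n : ℕ} (P : Matrix (Fin n) (Fin n) ℝ) (hP : ∀ i j, 0 ≤ P i j)
    (v : Fin n → ℝ) (hv : ∀ i, 0 < v i) (hv0 : v ≠ 0) (hPv : P *ᵥ v = v) :
    spectralRadius ℂ (P.map (algebraMap ℝ ℂ)) = 1 := by
  apply le_antisymm
  · unfold spectralRadius
    refine iSup₂_le (fun μ hμ => ?_)
    have h1 := spec_le_one P hP v hv hPv μ hμ
    have h2 : ‖μ‖₊ ≤ 1 := by exact_mod_cast h1
    exact_mod_cast h2
  · have h1 := one_mem_spec P v hv0 hPv
    have h2 : (‖(1 : ℂ)‖₊ : ENNReal) ≤ spectralRadius ℂ (P.map (algebraMap ℝ ℂ)) := by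
      unfold spectralRadius
      exact le_iSup₂ (f := fun (k : ℂ) (_ : k ∈ spectrum ℂ (P.map (algebraMap ℝ ℂ))) => (‖k‖₊ : ENNReal)) (1 : ℂ) h1
    simpa using h2

lemma one_lt_specRadius {n : ℕ} (A : Matrix (Fin n) (Fin n) ℂ) (μ : ℂ) (hμ : μ ∈ spectrum ℂ A)
    (h1 : 1 < ‖μ‖) : 1 < spectralRadius ℂ A := by
  have h2 : (‖μ‖₊ : ENNReal) ≤ spectralRadius ℂ A := by
    unfold spectralRadius
    exact le_iSup₂ (f := fun (k : ℂ) (_ : k ∈ spectrum ℂ A) => (‖k‖₊ : ENNReal)) μ hμ
  refine lt_of_lt_of_le ?_ h2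
  have : (1 : NNReal) < ‖μ‖₊ := by exact_mod_cast h1
  exact_mod_cast this

/-! ### Tridiagonal matrices -/

/-- entries of the tridiagonal matrix `I - ε L`, where `L` has weights `v` and conductances `w` -/
def ent (ε : ℝ) (v w : ℕ → ℝ) (i j : ℕ) : ℝ :=
  if i = j then 1 - ε * (w i + w (i + 1)) / (v i) ^ 2
  else if j = i + 1 then ε * w (i + 1) / (v i * v (i + 1))
  else if i = j + 1 then ε * w (j + 1) / (v j * v (j + 1))
  else 0

lemma ent_sum (n : ℕ) (ε : ℝ) (v w : ℕ → ℝ) (x : ℕ → ℂ) (i : ℕ) (hi : i < n) :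
    ∑ j ∈ range n, (ent ε v w i j : ℂ) * x j =
      (1 - ε * (w i + w (i + 1)) / (v i) ^ 2 : ℝ) * x i
      + (if i + 1 < n then ((ε * w (i + 1) / (v i * v (i + 1)) : ℝ) : ℂ) * x (i + 1) else 0)
      + (if 0 < i then ((ε * w i / (v (i - 1) * v i) : ℝ) : ℂ) * x (i - 1) else 0) := by
  have h1 : ∀ j, (ent ε v w i j : ℂ) * x j =
      (if j = i then ((1 - ε * (w i + w (i + 1)) / (v i) ^ 2 : ℝ) : ℂ) * x i else 0)
      + (if j = i + 1 then ((ε * w (i + 1) / (v i * v (i + 1)) : ℝ) : ℂ) * x (i + 1) else 0)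
      + (if (0 < i ∧ j = i - 1) then ((ε * w i / (v (i - 1) * v i) : ℝ) : ℂ) * x (i - 1) else 0) := by
    intro j
    unfold ent
    by_cases h1 : i = j
    · subst h1
      rw [if_pos rfl, if_pos rfl, if_neg (by omega), if_neg (by omega)]
      simp
    · by_cases h2 : j = i + 1
      · subst h2
        rw [if_neg h1, if_pos rfl, if_neg (by omega), if_pos rfl, if_neg (by omega)]
        simp
      · by_cases h3 : i = j + 1
        · subst h3
          rw [if_neg h1, if_neg h2, if_pos rfl, if_neg (by omega), if_neg (by omega), if_pos (by omega)]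
          simp
        · rw [if_neg h1, if_neg h2, if_neg h3, if_neg (by omega), if_neg (by omega), if_neg (by omega)]
          simp
  rw [Finset.sum_congr rfl (fun j _ => h1 j), Finset.sum_add_distrib, Finset.sum_add_distrib]
  congr 1
  · congr 1
    · rw [Finset.sum_ite_eq' (range n) i, if_pos (Finset.mem_range.mpr hi)]
    · rw [Finset.sum_ite_eq' (range n) (i + 1)]
      simp only [Finset.mem_range]
  · by_cases h0 : 0 < i
    · simp only [h0, true_and]
      rw [Finset.sum_ite_eq' (range n) (i - 1), if_pos (Finset.mem_range.mpr (by omega)), if_pos trivial]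
    · simp [h0]

/-- divergence form of the product `(I - ε L) x` for `x = v φ` -/
lemma ent_apply (n : ℕ) (ε : ℝ) (v w : ℕ → ℝ) (hv : ∀ i, v i ≠ 0) (hw0 : w 0 = 0) (hwn : w n = 0)
    (φ : ℕ → ℂ) (i : ℕ) (hi : i < n) :
    ∑ j ∈ range n, (ent ε v w i j : ℂ) * (v j * φ j) =
      v i * φ i - ε / v i * (w i * (φ i - φ (i - 1)) + w (i + 1) * (φ i - φ (i + 1))) := by
  rw [ent_sum n ε v w (fun j => (v j : ℂ) * φ j) i hi]
  have hvc : ∀ j, (v j : ℂ) ≠ 0 := fun j => by exact_mod_cast hv j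
  have h1 : (if i + 1 < n then ((ε * w (i + 1) / (v i * v (i + 1)) : ℝ) : ℂ) * (v (i + 1) * φ (i + 1)) else 0)
      = ε * w (i + 1) / v i * φ (i + 1) := by
    split_ifs with h
    · push_cast
      field_simp [hvc i, hvc (i + 1)]
    · have : i + 1 = n := by omega
      rw [this, hwn]; simp
  have h2 : (if 0 < i then ((ε * w i / (v (i - 1) * v i) : ℝ) : ℂ) * (v (i - 1) * φ (i - 1)) else 0)
      = ε * w i / v i * φ (i - 1) := by
    split_ifs with h
    · push_cast
      field_simp [hvc i, hvc (i - 1)]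
    · have : i = 0 := by omega
      rw [this, hw0]; simp
  simp only [h1, h2]
  push_cast
  field_simp [hvc i]
  ring


/-! ### The data: order 1003 -/

/-- Perron vector -/
def vv (i : ℕ) : ℝ := if i < 1000 then 1 else if i < 1002 then 32 else 1 / 10

/-- conductances; `ww i` links the sites `i - 1` and `i` -/
def ww (i : ℕ) : ℝ :=
  if i < 1000 then 1000000 * i
  else if i = 1000 then 320 else if i = 1001 then 360 else if i = 1002 then 3 / 2 else 0

/-- minus the imaginary part of the eigenvector, divided by `vv` -/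
def ff (i : ℕ) : ℝ :=
  if i < 1000 then -(7893493064005319 / 1975248000000000) + (1 / 125000) * ((i : ℝ) + 1)
      + (1 / 1000000000000) * ((i : ℝ) + 1) ^ 2
  else if i = 1000 then 41515862367892681 / 1975248000000000
  else if i = 1001 then 509 / 5 else 296773331 / 478500

/-- real part of the eigenvector, divided by `vv` -/
def gg (i : ℕ) : ℝ :=
  if i < 1000 then -8 - (1 / 1000000) * (4 * (i : ℝ) + 3)
  else if i = 1000 then -(115659004945307319 / 5618483200000000)
  else if i = 1001 then 155297717098907319 / 5618483200000000 else 248062031 / 3190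

lemma vv_pos (i : ℕ) : 0 < vv i := by
  unfold vv; split_ifs <;> norm_num

lemma ww_nonneg (i : ℕ) : 0 ≤ ww i := by
  unfold ww; split_ifs <;> positivity

lemma ww_pos (i : ℕ) (h0 : 0 < i) (h1 : i < 1003) : 0 < ww i := by
  unfold ww
  have : (0 : ℝ) < i := by exact_mod_cast h0
  split_ifs <;> first | positivity | omega

lemma ww_zero : ww 0 = 0 := by simp [ww]

lemma ww_end : ww 1003 = 0 := by simp [ww]

lemma ww_le (i : ℕ) : ww i ≤ 1000000000 := by
  unfold ww
  split_ifs with h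
  · have : (i : ℝ) ≤ 1000 := by exact_mod_cast h.le
    linarith
  all_goals norm_num

/-- the equation `v² g = -div (w ∇ f)` -/
lemma eq_g (i : ℕ) (hi : i < 1003) :
    (vv i) ^ 2 * gg i = ww i * (ff i - ff (i - 1)) + ww (i + 1) * (ff i - ff (i + 1)) := by
  by_cases h1 : i < 999
  · rcases Nat.eq_zero_or_pos i with h0 | h0
    · subst h0
      norm_num [vv, gg, ww, ff]
    · obtain ⟨k, rfl⟩ : ∃ k, i = k + 1 := ⟨i - 1, by omega⟩
      have e1 : k + 1 < 1000 := by omega
      have e2 : k < 1000 := by omega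
      have e3 : k + 1 + 1 < 1000 := by omega
      simp only [vv, gg, ww, ff, e1, e2, e3, if_true, Nat.add_sub_cancel]
      push_cast
      ring
  · have h2 : i = 999 ∨ i = 1000 ∨ i = 1001 ∨ i = 1002 := by omega
    rcases h2 with rfl | rfl | rfl | rfl <;> norm_num [vv, gg, ww, ff]

/-- the source `c` (before normalisation), multiplied by `vv` -/
def src (i : ℕ) : ℝ :=
  (vv i) ^ 2 * ff i + (ww i * (gg i - gg (i - 1)) + ww (i + 1) * (gg i - gg (i + 1)))

lemma src_pos (i : ℕ) (hi : i < 1003) : 0 < src i := by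
  unfold src
  by_cases h1 : i < 999
  · rcases Nat.eq_zero_or_pos i with h0 | h0
    · subst h0
      norm_num [vv, gg, ww, ff]
    · obtain ⟨k, rfl⟩ : ∃ k, i = k + 1 := ⟨i - 1, by omega⟩
      have e1 : k + 1 < 1000 := by omega
      have e2 : k < 1000 := by omega
      have e3 : k + 1 + 1 < 1000 := by omega
      simp only [vv, gg, ww, ff, e1, e2, e3, if_true, Nat.add_sub_cancel]
      push_cast
      have hk : (0 : ℝ) ≤ k := Nat.cast_nonneg k
      nlinarith
  · have h2 : i = 999 ∨ i = 1000 ∨ i = 1001 ∨ i = 1002 := by omega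
    rcases h2 with rfl | rfl | rfl | rfl <;> norm_num [vv, gg, ww, ff]

lemma sum_block (A B C : ℝ) (n : ℕ) :
    ∑ i ∈ range n, (A + B * ((i : ℝ) + 1) + C * ((i : ℝ) + 1) ^ 2)
      = A * n + B * (n * (n + 1) / 2) + C * (n * (n + 1) * (2 * n + 1) / 6) := by
  induction n with
  | zero => simp
  | succ n ih => rw [Finset.sum_range_succ, ih]; push_cast; ring

lemma sum_f : ∑ i ∈ range 1003, vv i * ff i = 0 := by
  rw [Finset.sum_range_succ, Finset.sum_range_succ, Finset.sum_range_succ]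
  have h1 : ∑ i ∈ range 1000, vv i * ff i = ∑ i ∈ range 1000,
      (-(7893493064005319 / 1975248000000000) + (1 / 125000) * ((i : ℝ) + 1)
      + (1 / 1000000000000) * ((i : ℝ) + 1) ^ 2) := by
    refine Finset.sum_congr rfl (fun i hi => ?_)
    have e1 : i < 1000 := Finset.mem_range.mp hi
    simp only [vv, ff, e1, if_true]
    ring
  rw [h1, sum_block]
  norm_num [vv, ff]

lemma sum_g : ∑ i ∈ range 1003, vv i * gg i = 0 := by
  rw [Finset.sum_range_succ, Finset.sum_range_succ, Finset.sum_range_succ]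
  have h1 : ∑ i ∈ range 1000, vv i * gg i = ∑ i ∈ range 1000,
      ((-8 + 1 / 1000000) + (-4 / 1000000) * ((i : ℝ) + 1)
      + 0 * ((i : ℝ) + 1) ^ 2) := by
    refine Finset.sum_congr rfl (fun i hi => ?_)
    have e1 : i < 1000 := Finset.mem_range.mp hi
    simp only [vv, gg, e1, if_true]
    ring
  rw [h1, sum_block]
  norm_num [vv, gg]


/-! ### The matrix -/

/-- the step `ε` -/
def eps : ℝ := 1 / 1000000000000

/-- the matrix `P` -/
def PP : Matrix (Fin 1003) (Fin 1003) ℝ := fun i j => ent eps vv ww i j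

lemma vv_ge (i : ℕ) : 1 / 10 ≤ vv i := by
  unfold vv; split_ifs <;> norm_num

lemma link_le (i : ℕ) : eps * ww (i + 1) / (vv i * vv (i + 1)) ≤ 1 / 2 := by
  have h1 := vv_ge i
  have h2 := vv_ge (i + 1)
  have h3 := ww_le (i + 1)
  have h4 : 1 / 100 ≤ vv i * vv (i + 1) := by nlinarith
  rw [div_le_iff₀ (by linarith)]
  unfold eps
  nlinarith

lemma link_pos (i : ℕ) (hi : i + 1 < 1003) : 0 < eps * ww (i + 1) / (vv i * vv (i + 1)) := by
  have h1 := vv_pos i
  have h2 := vv_pos (i + 1)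
  have h3 := ww_pos (i + 1) (Nat.succ_pos i) hi
  unfold eps
  positivity

lemma diag_pos (i : ℕ) : 0 < 1 - eps * (ww i + ww (i + 1)) / (vv i) ^ 2 := by
  have h1 := vv_ge i
  have h2 := ww_le i
  have h3 := ww_le (i + 1)
  have h4 : 1 / 100 ≤ (vv i) ^ 2 := by nlinarith
  rw [sub_pos, div_lt_one (by linarith)]
  unfold eps
  nlinarith

lemma ent_symm (i j : ℕ) : ent eps vv ww i j = ent eps vv ww j i := by
  unfold ent
  by_cases h1 : i = j
  · subst h1; rfl
  · by_cases h2 : j = i + 1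
    · subst h2
      rw [if_neg h1, if_pos rfl, if_neg (by omega), if_neg (by omega), if_pos rfl]
    · by_cases h3 : i = j + 1
      · subst h3
        rw [if_neg h1, if_neg h2, if_pos rfl, if_neg (by omega), if_pos rfl]
      · rw [if_neg h1, if_neg h2, if_neg h3, if_neg (by omega), if_neg h3, if_neg h2]

lemma ent_zero (i j : ℕ) (h : 1 < |(i : ℤ) - (j : ℤ)|) : ent eps vv ww i j = 0 := by
  unfold ent
  have h1 : i ≠ j := by rintro rfl; simp at h
  have h2 : j ≠ i + 1 := by rintro rfl; push_cast at h; simp at h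
  have h3 : i ≠ j + 1 := by rintro rfl; push_cast at h; simp at h
  rw [if_neg h1, if_neg h2, if_neg h3]

lemma ent_pos (i j : ℕ) (hi : i < 1003) (hj : j < 1003) (h : |(i : ℤ) - (j : ℤ)| ≤ 1) :
    0 < ent eps vv ww i j := by
  unfold ent
  rw [abs_le] at h
  by_cases h1 : i = j
  · rw [if_pos h1]; exact diag_pos i
  · by_cases h2 : j = i + 1
    · rw [if_neg h1, if_pos h2]; exact link_pos i (by omega)
    · by_cases h3 : i = j + 1
      · rw [if_neg h1, if_neg h2, if_pos h3]; exact link_pos j (by omega)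
      · omega

lemma ent_nonneg (i j : ℕ) (hi : i < 1003) (hj : j < 1003) : 0 ≤ ent eps vv ww i j := by
  by_cases h : |(i : ℤ) - (j : ℤ)| ≤ 1
  · exact (ent_pos i j hi hj h).le
  · exact (ent_zero i j (by omega)).ge

lemma ent_near (i j : ℕ) (h : |(i : ℤ) - (j : ℤ)| = 1) :
    ent eps vv ww i j ≤ (if i = j + 1 then 1 / 2 else 0) + (if i = j - 1 ∧ 0 < j then 1 / 2 else 0) := by
  have h' : j = i + 1 ∨ i = j + 1 := by
    rcases (abs_eq (by norm_num : (0:ℤ) ≤ 1)).mp h with h | h
    · right; omega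
    · left; omega
  unfold ent
  rcases h' with h2 | h2
  · rw [if_neg (by omega), if_pos h2, if_neg (by omega), if_pos (by omega), zero_add]
    exact link_le i
  · rw [if_neg (by omega), if_neg (by omega), if_pos h2, if_pos h2, if_neg (by omega), add_zero]
    exact link_le j

lemma col_sum (s : Fin 1003) :
    ∑ r ∈ Finset.univ.filter (fun r : Fin 1003 => |((r : ℕ) : ℤ) - ((s : ℕ) : ℤ)| = 1), PP r s ≤ 1 := by
  have h1 : ∑ r ∈ Finset.univ.filter (fun r : Fin 1003 => |((r : ℕ) : ℤ) - ((s : ℕ) : ℤ)| = 1), PP r s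
      ≤ ∑ r : Fin 1003, ((if (r : ℕ) = (s : ℕ) + 1 then (1 / 2 : ℝ) else 0)
        + (if (r : ℕ) = (s : ℕ) - 1 ∧ 0 < (s : ℕ) then 1 / 2 else 0)) := by
    rw [Finset.sum_filter]
    refine Finset.sum_le_sum (fun r _ => ?_)
    by_cases h : |((r : ℕ) : ℤ) - ((s : ℕ) : ℤ)| = 1
    · rw [if_pos h]; exact ent_near r s h
    · rw [if_neg h]
      refine add_nonneg ?_ ?_ <;> split_ifs <;> norm_num
  refine h1.trans ?_
  rw [Finset.sum_add_distrib]
  have h2 : ∑ r : Fin 1003, (if (r : ℕ) = (s : ℕ) + 1 then (1 / 2 : ℝ) else 0) ≤ 1 / 2 := by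
    rw [Fin.sum_univ_eq_sum_range (fun r => if r = (s : ℕ) + 1 then (1 / 2 : ℝ) else 0) 1003,
      Finset.sum_ite_eq']
    split_ifs <;> norm_num
  have h3 : ∑ r : Fin 1003, (if (r : ℕ) = (s : ℕ) - 1 ∧ 0 < (s : ℕ) then (1 / 2 : ℝ) else 0) ≤ 1 / 2 := by
    rw [Fin.sum_univ_eq_sum_range (fun r => if r = (s : ℕ) - 1 ∧ 0 < (s : ℕ) then (1 / 2 : ℝ) else 0) 1003]
    by_cases h0 : 0 < (s : ℕ)
    · simp only [h0, and_true]
      rw [Finset.sum_ite_eq']
      split_ifs <;> norm_num
    · simp [h0]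
  linarith

/-- divergence form on the finite index type -/
lemma PP_apply (φ : ℕ → ℂ) (i : Fin 1003) :
    ∑ j : Fin 1003, (PP i j : ℂ) * (vv j * φ j) =
      vv i * φ i - eps / vv i * (ww i * (φ i - φ (i - 1)) + ww (i + 1) * (φ i - φ (i + 1))) := by
  have h := Fin.sum_univ_eq_sum_range (fun j => (ent eps vv ww i j : ℂ) * (vv j * φ j)) 1003
  have h2 := ent_apply 1003 eps vv ww (fun i => (vv_pos i).ne') ww_zero ww_end φ i i.2
  rw [← h2, ← h]
  rfl

lemma PP_vv : PP *ᵥ (fun i : Fin 1003 => vv i) = fun i : Fin 1003 => vv i := by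
  funext i
  have h := PP_apply (fun _ => 1) i
  simp only [sub_self, mul_zero, add_zero, sub_zero, mul_one] at h
  simp only [Matrix.mulVec, dotProduct]
  exact_mod_cast h

/-- the eigenvector, divided by `vv` -/
def ph (i : ℕ) : ℂ := (gg i : ℂ) - Complex.I * ff i

lemma PP_ph (i : Fin 1003) :
    ∑ j : Fin 1003, (PP i j : ℂ) * (vv j * ph j) =
      (1 + eps * Complex.I) * (vv i * ph i) - ((eps * (src i / vv i) : ℝ) : ℂ) := by
  rw [PP_apply]
  have h1 := eq_g i i.2
  have h2 : ww i * (gg i - gg (i - 1)) + ww (i + 1) * (gg i - gg (i + 1)) = src i - (vv i) ^ 2 * ff i := by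
    unfold src; ring
  have h3 : (ww i : ℂ) * (ph i - ph (i - 1)) + ww (i + 1) * (ph i - ph (i + 1))
      = ((ww i * (gg i - gg (i - 1)) + ww (i + 1) * (gg i - gg (i + 1)) : ℝ) : ℂ)
        - Complex.I * ((ww i * (ff i - ff (i - 1)) + ww (i + 1) * (ff i - ff (i + 1)) : ℝ) : ℂ) := by
    unfold ph; push_cast; ring
  rw [h3, h2, ← h1]
  have hv : (vv i : ℂ) ≠ 0 := by exact_mod_cast (vv_pos i).ne'
  unfold ph
  push_cast
  field_simp
  have hI : Complex.I ^ 2 = -1 := Complex.I_sq
  linear_combination ((eps : ℂ) * (vv i) ^ 2 * ff i) * hI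

lemma sum_ph : ∑ i : Fin 1003, (vv i : ℂ) * ph i = 0 := by
  have h1 : ∑ i : Fin 1003, (vv i : ℂ) * ph i = ((∑ i ∈ range 1003, vv i * gg i : ℝ) : ℂ)
      - Complex.I * ((∑ i ∈ range 1003, vv i * ff i : ℝ) : ℂ) := by
    rw [Fin.sum_univ_eq_sum_range (fun i => (vv i : ℂ) * ph i) 1003]
    push_cast
    rw [Finset.mul_sum, ← Finset.sum_sub_distrib]
    refine Finset.sum_congr rfl (fun i _ => ?_)
    unfold ph; ring
  rw [h1, sum_f, sum_g]
  simp

/-- total mass of the unnormalised source -/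
def tot : ℝ := ∑ i : Fin 1003, src i / vv i

lemma tot_pos : 0 < tot := by
  unfold tot
  refine Finset.sum_pos (fun i _ => div_pos (src_pos i i.2) (vv_pos i)) ⟨0, Finset.mem_univ _⟩

/-- the vector `c` -/
def cc (i : Fin 1003) : ℝ := (src i / vv i) / tot

lemma cc_mul_tot (i : Fin 1003) : cc i * tot = src i / vv i := by
  unfold cc
  exact div_mul_cancel₀ _ tot_pos.ne'

lemma rank_one_apply {n : ℕ} (P : Matrix (Fin n) (Fin n) ℝ) (c : Fin n → ℝ) (i j : Fin n) :
    ((1 - Matrix.vecMulVec c (fun _ => 1)) * P : Matrix (Fin n) (Fin n) ℝ) i j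
      = P i j - c i * ∑ k, P k j := by
  rw [Matrix.sub_mul, Matrix.one_mul, Matrix.sub_apply]
  congr 1
  simp only [Matrix.mul_apply, Matrix.vecMulVec_apply, mul_one]
  rw [Finset.mul_sum]

theorem result :
    ∃ (P : Matrix (Fin 1003) (Fin 1003) ℝ) (c : Fin 1003 → ℝ),
      P.IsSymm ∧
      (∀ r s : Fin 1003, 1 < |((r : ℕ) : ℤ) - ((s : ℕ) : ℤ)| → P r s = 0) ∧
      (∀ r s : Fin 1003, |((r : ℕ) : ℤ) - ((s : ℕ) : ℤ)| ≤ 1 → 0 < P r s) ∧
      spectralRadius ℂ (P.map (algebraMap ℝ ℂ)) = 1 ∧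
      (∀ s : Fin 1003, ∑ r ∈ Finset.univ.filter (fun r : Fin 1003 => |((r : ℕ) : ℤ) - ((s : ℕ) : ℤ)| = 1), P r s ≤ 1) ∧
      (∀ i, 0 ≤ c i) ∧ ∑ i, c i = 1 ∧
      1 < spectralRadius ℂ
        (((1 - Matrix.vecMulVec c (fun _ => 1)) * P).map (algebraMap ℝ ℂ)) := by
  refine ⟨PP, cc, ?_, ?_, ?_, ?_, col_sum, ?_, ?_, ?_⟩
  · ext i j; exact ent_symm j i
  · intro r s h; exact ent_zero r s h
  · intro r s h; exact ent_pos r s r.2 s.2 h
  · refine specRadius_eq_one PP (fun i j => ent_nonneg i j i.2 j.2) (fun i => vv i) (fun i => vv_pos i) ?_ PP_vv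
    intro h
    have := congrFun h 0
    exact (vv_pos _).ne' this
  · intro i
    exact div_nonneg (div_pos (src_pos i i.2) (vv_pos i)).le tot_pos.le
  · unfold cc
    rw [← Finset.sum_div]
    exact div_self tot_pos.ne'
  · refine one_lt_specRadius _ (1 + eps * Complex.I) ?_ ?_
    · rw [mem_spec_iff]
      refine ⟨fun i => (vv i : ℂ) * ph i, ?_, ?_⟩
      · intro h
        have h0 := congrFun h 0
        have h1 : (vv 0 : ℂ) * ph 0 = 0 := h0
        have h2 : ph 0 = 0 := by
          rcases mul_eq_zero.mp h1 with h | h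
          · exact absurd h (by exact_mod_cast (vv_pos 0).ne')
          · exact h
        have h3 := congrArg Complex.re h2
        have h4 : (ph 0).re = gg 0 := by simp [ph]
        rw [h4] at h3
        norm_num [gg] at h3
      · funext i
        have e1 : ∀ j : Fin 1003, ((1 - Matrix.vecMulVec cc (fun _ => 1)) * PP : Matrix (Fin 1003) (Fin 1003) ℝ) i j
            = PP i j - cc i * ∑ k, PP k j := by
          intro j
          exact rank_one_apply PP cc i j
        simp only [Matrix.mulVec, dotProduct, Matrix.map_apply, Complex.coe_algebraMap, Pi.smul_apply,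
          smul_eq_mul, e1]
        have e2 : ∀ j : Fin 1003, ((PP i j - cc i * ∑ k, PP k j : ℝ) : ℂ) * ((vv j : ℂ) * ph j)
            = (PP i j : ℂ) * (vv j * ph j) - (cc i : ℂ) * ∑ k : Fin 1003, (PP k j : ℂ) * (vv j * ph j) := by
          intro j
          push_cast
          rw [sub_mul, mul_assoc, Finset.sum_mul]
        rw [Finset.sum_congr rfl (fun j _ => e2 j), Finset.sum_sub_distrib, PP_ph, ← Finset.mul_sum,
          Finset.sum_comm]
        rw [Finset.sum_congr rfl (fun k _ => PP_ph k), Finset.sum_sub_distrib, ← Finset.mul_sum, sum_ph]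
        have e3 : ∑ k : Fin 1003, ((eps * (src k / vv k) : ℝ) : ℂ) = ((eps * tot : ℝ) : ℂ) := by
          unfold tot
          rw [Finset.mul_sum]
          push_cast
          rfl
        rw [e3]
        have e4 : (cc i : ℂ) * (tot : ℂ) = ((src i / vv i : ℝ) : ℂ) := by
          rw [← Complex.ofReal_mul, cc_mul_tot]
        push_cast at e4 ⊢
        linear_combination (eps : ℂ) * e4
    · have h1 : ‖(1 + eps * Complex.I : ℂ)‖ ^ 2 = 1 + eps ^ 2 := by
        rw [Complex.sq_norm, Complex.normSq_apply]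
        simp
        ring
      have h2 : 0 < eps := by norm_num [eps]
      by_contra h3
      push Not at h3
      have h4 : ‖(1 + eps * Complex.I : ℂ)‖ ^ 2 ≤ 1 := by
        have := norm_nonneg (1 + eps * Complex.I : ℂ)
        nlinarith
      rw [h1] at h4
      nlinarith

end

end Pool.Agent.Results.MP_8f6a5a_an.Counterexample
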